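import Mathlib
import Pool.Agent.W79.ST.Defs

set_option autoImplicit false

namespace Pool.Agent.W7.ST

open Pool.Agent.W79.ST

/-- the j-th summand -/
noncomputable def tm (j s : ℕ) : ℝ :=
  if T j < s then (1 / 2 : ℝ) ^ j + 3 * 2 ^ (j + 4) * (1 / (T j : ℝ) - 1 / (s : ℝ)) else 0

theorem psi_eq (N s : ℕ) : psi N s = (if 1 < s then 16 else 0) + ∑ j ∈ Finset.range N, tm j s := rfl

theorem T_pos (j : ℕ) : 0 < T j := by unfold T; positivity

theorem T_posR (j : ℕ) : (0 : ℝ) < (T j : ℝ) := by exact_mod_cast T_pos j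

theorem tm_nonneg (j s : ℕ) : 0 ≤ tm j s := by
  unfold tm
  split_ifs with h
  · have h1 : (T j : ℝ) < s := by exact_mod_cast h
    have h2 : 1 / (s : ℝ) ≤ 1 / (T j : ℝ) := one_div_le_one_div_of_le (T_posR j) h1.le
    have h3 : (0 : ℝ) ≤ 1 / (T j : ℝ) - 1 / (s : ℝ) := by linarith
    positivity
  · exact le_refl _

theorem tm_mono (j : ℕ) : Monotone (tm j) := by
  intro r s hrs
  by_cases hr : T j < r
  · have hs : T j < s := lt_of_lt_of_le hr hrs
    unfold tm
    rw [if_pos hr, if_pos hs]
    have hr0 : (0 : ℝ) < r := by exact_mod_cast lt_of_le_of_lt (Nat.zero_le _) hr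
    have h1 : 1 / (s : ℝ) ≤ 1 / (r : ℝ) := one_div_le_one_div_of_le hr0 (by exact_mod_cast hrs)
    have h2 : 1 / (T j : ℝ) - 1 / (r : ℝ) ≤ 1 / (T j : ℝ) - 1 / (s : ℝ) := by linarith
    have h3 : (0 : ℝ) ≤ 3 * 2 ^ (j + 4) := by positivity
    have := mul_le_mul_of_nonneg_left h2 h3
    linarith
  · have : tm j r = 0 := by unfold tm; rw [if_neg hr]
    rw [this]
    exact tm_nonneg j s

theorem psi_mono (N : ℕ) : Monotone (psi N) := by
  intro r s hrs
  rw [psi_eq, psi_eq]
  apply add_le_add
  · split_ifs with h1 h2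
    · exact le_refl _
    · exact absurd (lt_of_lt_of_le h1 hrs) h2
    · norm_num
    · exact le_refl _
  · exact Finset.sum_le_sum fun j _ => tm_mono j hrs

theorem psi_nonneg (N s : ℕ) : 0 ≤ psi N s := by
  rw [psi_eq]
  apply add_nonneg
  · split_ifs <;> norm_num
  · exact Finset.sum_nonneg fun j _ => tm_nonneg j s

theorem exp_le (j : ℕ) : 2 * j + 7 ≤ 2 ^ (j + 4) := by
  induction j with
  | zero => norm_num
  | succ n ih =>
    have : 2 ^ (n + 1 + 4) = 2 * 2 ^ (n + 4) := by ring
    rw [this]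
    omega

theorem tm_le (j s : ℕ) : tm j s ≤ (1 / 2 : ℝ) ^ j + (1 / 2 : ℝ) ^ (j + 1) := by
  unfold tm
  split_ifs with h
  · have hT := T_posR j
    have hs0 : (0 : ℝ) ≤ 1 / (s : ℝ) := by positivity
    have h1 : 3 * 2 ^ (j + 4) * (1 / (T j : ℝ) - 1 / (s : ℝ)) ≤ 3 * 2 ^ (j + 4) * (1 / (T j : ℝ)) := by
      apply mul_le_mul_of_nonneg_left _ (by positivity)
      linarith
    have h2 : 3 * 2 ^ (j + 4) * (1 / (T j : ℝ)) ≤ (1 / 2 : ℝ) ^ (j + 1) := by
      have h3 : (2 : ℝ) ^ (2 * j + 7) ≤ (T j : ℝ) := by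
        have : 2 ^ (2 * j + 7) ≤ T j := by
          unfold T
          exact Nat.pow_le_pow_right (by norm_num) (exp_le j)
        exact_mod_cast this
      rw [mul_one_div, div_le_iff₀ hT]
      calc (3 : ℝ) * 2 ^ (j + 4) ≤ (1 / 2 : ℝ) ^ (j + 1) * 2 ^ (2 * j + 7) := by
            have e1 : (2 : ℝ) ^ (2 * j + 7) = 2 ^ (j + 1) * (4 * 2 ^ (j + 4)) := by ring
            have e2 : (1 / 2 : ℝ) ^ (j + 1) * 2 ^ (j + 1) = 1 := by
              rw [← mul_pow]; norm_num
            rw [e1, ← mul_assoc, e2, one_mul]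
            have : (0 : ℝ) < 2 ^ (j + 4) := by positivity
            linarith
        _ ≤ (1 / 2 : ℝ) ^ (j + 1) * (T j : ℝ) := by
            apply mul_le_mul_of_nonneg_left h3 (by positivity)
    linarith
  · positivity

theorem geo (N : ℕ) : ∑ j ∈ Finset.range N, (1 / 2 : ℝ) ^ j ≤ 2 := by
  have : ∑ j ∈ Finset.range N, (1 / 2 : ℝ) ^ j = 2 - 2 * (1 / 2 : ℝ) ^ N := by
    induction N with
    | zero => norm_num
    | succ n ih => rw [Finset.sum_range_succ, ih, pow_succ]; ring
  rw [this]
  have : (0 : ℝ) < (1 / 2 : ℝ) ^ N := by positivity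
  linarith

theorem psi_le (N s : ℕ) : psi N s ≤ 19 := by
  rw [psi_eq]
  have h1 : (if 1 < s then (16 : ℝ) else 0) ≤ 16 := by split_ifs <;> norm_num
  have h2 : ∑ j ∈ Finset.range N, tm j s ≤
      ∑ j ∈ Finset.range N, (3 / 2 : ℝ) * (1 / 2 : ℝ) ^ j := by
    apply Finset.sum_le_sum
    intro j _
    have := tm_le j s
    rw [pow_succ] at this
    linarith
  rw [← Finset.mul_sum] at h2
  have h3 := geo N
  linarith

theorem tm_zero (j s : ℕ) (h : s ≤ T j) : tm j s = 0 := by
  unfold tm
  rw [if_neg (not_lt.mpr h)]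

theorem conv {f : ℕ → ℝ} (hf : Monotone f) (p q : ℕ) :
    (p : ℝ) * f p + q * f q ≤ ((p : ℝ) + q) * f (p + q) := by
  have h1 : f p ≤ f (p + q) := hf (Nat.le_add_right _ _)
  have h2 : f q ≤ f (p + q) := hf (Nat.le_add_left _ _)
  have hp : (0 : ℝ) ≤ p := Nat.cast_nonneg _
  have hq : (0 : ℝ) ≤ q := Nat.cast_nonneg _
  nlinarith [mul_le_mul_of_nonneg_left h1 hp, mul_le_mul_of_nonneg_left h2 hq]

/-- the numerical facts on the potential -/
theorem main : S_PSI := by
  refine ⟨psi_mono, psi_nonneg, psi_le, ?_, ?_, ?_⟩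
  · intro N s r hr hs
    rw [psi_eq, psi_eq, if_pos hs, if_neg (by omega)]
    have h1 : ∑ j ∈ Finset.range N, tm j r = 0 := by
      apply Finset.sum_eq_zero
      intro j _
      apply tm_zero
      have := T_pos j
      omega
    have h2 : 0 ≤ ∑ j ∈ Finset.range N, tm j s := Finset.sum_nonneg fun j _ => tm_nonneg j s
    rw [h1]
    linarith
  · intro N j s r hj hr hs
    rw [psi_eq, psi_eq]
    have hrs : r ≤ s := le_trans hr hs.le
    have h0 : (if 1 < r then (16 : ℝ) else 0) ≤ (if 1 < s then (16 : ℝ) else 0) := by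
      split_ifs with h1 h2
      · exact le_refl _
      · exact absurd (lt_of_lt_of_le h1 hrs) h2
      · norm_num
      · exact le_refl _
    have h1 : (1 / 2 : ℝ) ^ j ≤ ∑ i ∈ Finset.range N, (tm i s - tm i r) := by
      have h2 : (1 / 2 : ℝ) ^ j ≤ tm j s - tm j r := by
        rw [tm_zero j r hr, sub_zero]
        unfold tm
        rw [if_pos hs]
        have h1 : (T j : ℝ) < s := by exact_mod_cast hs
        have h2 : 1 / (s : ℝ) ≤ 1 / (T j : ℝ) := one_div_le_one_div_of_le (T_posR j) h1.le
        have h3 : (0 : ℝ) ≤ 1 / (T j : ℝ) - 1 / (s : ℝ) := by linarith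
        have : (0 : ℝ) ≤ 3 * 2 ^ (j + 4) * (1 / (T j : ℝ) - 1 / (s : ℝ)) := by positivity
        linarith
      refine le_trans h2 ?_
      exact Finset.single_le_sum (f := fun i => tm i s - tm i r)
        (fun i _ => sub_nonneg.mpr (tm_mono i hrs)) (Finset.mem_range.mpr hj)
    rw [Finset.sum_sub_distrib] at h1
    linarith
  · intro N j p q hj hp hq
    rw [psi_eq, psi_eq, psi_eq]
    have key : ∀ i ∈ Finset.range N, (if i = j then (3 * 2 ^ (j + 4) : ℝ) else 0) ≤
        ((p : ℝ) + q) * tm i (p + q) - p * tm i p - q * tm i q := by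
      intro i _
      split_ifs with h
      · subst h
        set c : ℝ := 3 * 2 ^ (i + 4) with hc
        set m : ℕ → ℝ := fun s => if T i < s then (1 / 2 : ℝ) ^ i else 0 with hm
        have hmm : Monotone m := by
          intro r s hrs
          simp only [hm]
          split_ifs with h1 h2
          · exact le_refl _
          · exact absurd (lt_of_lt_of_le h1 hrs) h2
          · positivity
          · exact le_refl _
        have hT := T_posR i
        have e : ∀ s : ℕ, T i ≤ s → (s : ℝ) * tm i s = s * m s + c * ((s : ℝ) / T i - 1) := by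
          intro s hs
          have hs0 : (0 : ℝ) < s := lt_of_lt_of_le hT (by exact_mod_cast hs)
          rcases Nat.lt_or_ge (T i) s with h1 | h1
          · simp only [hm, tm]
            rw [if_pos h1, if_pos h1, ← hc]
            field_simp
          · have : s = T i := le_antisymm h1 hs
            subst this
            simp only [hm, tm]
            rw [if_neg (lt_irrefl _), if_neg (lt_irrefl _), div_self hT.ne']
            ring
        have e1 := e p hp
        have e2 := e q hq
        have e3 := e (p + q) (le_trans hp (Nat.le_add_right _ _))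
        push_cast at e3
        rw [e1, e2, e3]
        have h5 := conv hmm p q
        have h6 : c * (((p : ℝ) + q) / T i - 1) - c * ((p : ℝ) / T i - 1) - c * ((q : ℝ) / T i - 1)
            = c := by ring
        linarith
      · have := conv (tm_mono i) p q
        linarith
    have hsum := Finset.sum_le_sum key
    rw [Finset.sum_ite_eq' (Finset.range N) j, if_pos (Finset.mem_range.mpr hj)] at hsum
    rw [Finset.sum_sub_distrib, Finset.sum_sub_distrib, ← Finset.mul_sum, ← Finset.mul_sum,
      ← Finset.mul_sum] at hsum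
    have h0 : Monotone (fun s : ℕ => if 1 < s then (16 : ℝ) else 0) := by
      intro r s hrs
      simp only
      split_ifs with h1 h2
      · exact le_refl _
      · exact absurd (lt_of_lt_of_le h1 hrs) h2
      · norm_num
      · exact le_refl _
    have h1 := conv h0 p q
    linarith

end Pool.Agent.W7.ST
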